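import Pool.Agent.COV.StmtsD

set_option autoImplicit false

/-!
# Squad COV, row EXV: a place over p at which x is small and y is a unit
-/

namespace Pool.Agent.COV.H35

open Polynomial NumberField Pool.Agent.TTC Pool.Agent.COV

/-- the norm of `1 - a p` is `1` modulo `p` -/
theorem norm_mod {K₀ : Type} [Field K₀] [NumberField K₀] (p : ℕ) (a : 𝓞 K₀) :
    ((Algebra.norm ℤ (1 - a * (p : 𝓞 K₀)) : ℤ) : ZMod p) = 1 := by
  classical
  set b := NumberField.RingOfIntegers.basis K₀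
  rw [Algebra.norm_eq_matrix_det b]
  have h1 : ((Matrix.det (Algebra.leftMulMatrix b (1 - a * (p : 𝓞 K₀))) : ℤ) : ZMod p) =
      Matrix.det ((Int.castRingHom (ZMod p)).mapMatrix
        (Algebra.leftMulMatrix b (1 - a * (p : 𝓞 K₀)))) := by
    rw [← RingHom.map_det]
    rfl
  rw [h1]
  have h2 : (Int.castRingHom (ZMod p)).mapMatrix
      (Algebra.leftMulMatrix b (1 - a * (p : 𝓞 K₀))) = 1 := by
    rw [map_sub, map_mul, map_one, map_natCast, map_sub, map_mul, map_one, map_natCast]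
    have h3 : ((p : ℕ) : Matrix (Module.Free.ChooseBasisIndex ℤ (𝓞 K₀))
        (Module.Free.ChooseBasisIndex ℤ (𝓞 K₀)) (ZMod p)) = 0 := by
      ext i j
      rw [Matrix.natCast_apply]
      split_ifs <;> simp
    rw [h3, mul_zero, sub_zero]
  rw [h2, Matrix.det_one]

/-- ROW EXV -/
theorem exv : ExvStmt := by
  intro K₀ K _ _ _ _ _ x y p hp hx hy
  have hp0 : (p : 𝓞 K) ≠ 0 := Nat.cast_ne_zero.2 hp.ne_zero
  haveI : Fact p.Prime := ⟨hp⟩
  have hne : Ideal.span {(p : 𝓞 K₀), x} ≠ ⊤ := by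
    intro h
    have h1 : (1 : 𝓞 K₀) ∈ Ideal.span {(p : 𝓞 K₀), x} := by
      rw [h]
      exact Submodule.mem_top
    rw [Ideal.mem_span_pair] at h1
    obtain ⟨a, b, hab⟩ := h1
    have h2 : b * x = 1 - a * (p : 𝓞 K₀) := by
      rw [← hab]
      ring
    have h3 := norm_mod p a
    rw [← h2, map_mul] at h3
    obtain ⟨c, hc⟩ := hx
    rw [hc] at h3
    push_cast at h3
    simp at h3
  obtain ⟨P, hP, hle⟩ := Ideal.exists_le_maximal _ hne
  have hpP : (p : 𝓞 K₀) ∈ P := hle (Ideal.subset_span (by simp))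
  have hxP : x ∈ P := hle (Ideal.subset_span (by simp))
  have hyP : y ∉ P := by
    intro h
    have h1 : ((Ideal.absNorm (Ideal.span {y}) : ℕ) : 𝓞 K₀) ∈ P := by
      have h2 := Ideal.absNorm_mem (Ideal.span {y})
      exact (Ideal.span_le.2 (by simpa using h)) h2
    rw [Ideal.absNorm_span_singleton] at h1
    have hco : IsCoprime (p : ℤ) ((Algebra.norm ℤ y).natAbs : ℤ) := by
      rw [Nat.isCoprime_iff_coprime]
      rw [Nat.Prime.coprime_iff_not_dvd hp]
      intro h2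
      apply hy
      exact Int.natCast_dvd.2 h2
    obtain ⟨a, b, hab⟩ := hco
    refine hP.ne_top ((Ideal.eq_top_iff_one _).2 ?_)
    have h2 : (1 : 𝓞 K₀) = (a : 𝓞 K₀) * (p : 𝓞 K₀) +
        (b : 𝓞 K₀) * (((Algebra.norm ℤ y).natAbs : ℕ) : 𝓞 K₀) := by
      have := congrArg (Int.cast : ℤ → 𝓞 K₀) hab
      rw [Int.cast_add, Int.cast_mul, Int.cast_mul, Int.cast_natCast, Int.cast_natCast,
        Int.cast_one] at this
      exact this.symm
    rw [h2]
    exact P.add_mem (P.mul_mem_left _ hpP) (P.mul_mem_left _ h1)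
  have hinj : Function.Injective (algebraMap (𝓞 K₀) (𝓞 K)) := by
    intro u v huv
    apply RingOfIntegers.coe_injective
    apply (algebraMap K₀ K).injective
    have h1 := congrArg (fun z : 𝓞 K => (z : K)) huv
    exact h1
  obtain ⟨Q, hQ, hQP⟩ := Ideal.exists_ideal_over_maximal_of_isIntegral (S := 𝓞 K) P (by
    rw [(RingHom.injective_iff_ker_eq_bot _).1 hinj]
    exact bot_le)
  have hmem : ∀ z : 𝓞 K₀, algebraMap (𝓞 K₀) (𝓞 K) z ∈ Q ↔ z ∈ P := by
    intro z
    rw [← hQP, Ideal.mem_comap]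
  have hpQ : (p : 𝓞 K) ∈ Q := by
    have h1 := (hmem (p : 𝓞 K₀)).2 hpP
    rwa [map_natCast] at h1
  have hbot : Q ≠ ⊥ := by
    intro h
    rw [h, Ideal.mem_bot] at hpQ
    exact hp0 hpQ
  let w : IsDedekindDomain.HeightOneSpectrum (𝓞 K) := ⟨Q, hQ.isPrime, hbot⟩
  refine ⟨FinitePlace.mk w, ?_, ?_, ?_⟩
  · rw [FinitePlace.mk_apply]
    have h1 := (FinitePlace.norm_lt_one_iff_mem K w (p : 𝓞 K)).2 hpQ
    simpa using h1
  · rw [FinitePlace.mk_apply]
    exact (FinitePlace.norm_lt_one_iff_mem K w (algebraMap (𝓞 K₀) (𝓞 K) x)).2 ((hmem x).2 hxP)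
  · rw [FinitePlace.mk_apply]
    exact (FinitePlace.norm_eq_one_iff_notMem K w (algebraMap (𝓞 K₀) (𝓞 K) y)).2
      (fun h => hyP ((hmem y).1 h))

end Pool.Agent.COV.H35
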